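import Pool.Agent.Helper92.RECT.Goals3

/-!
# Packet RECT-SLC: completeness for a slab
-/

set_option autoImplicit false

namespace Pool.Agent.Helper12.RECT

open Pool.Agent.Helper65.LinSpace Pool.Agent.Helper78.Mpc Pool.Agent.Helper28.Ram Finset
open Pool.Agent.Helper65.OH (Prm OneHead Conf Par InBox co GoodQ Fns)
open Pool.Agent.Helper28.OHS (cellN cs cn cd Rep)
open Pool.Agent.Helper28.Few (mcf)
open Pool.Agent.Helper92.RECT

section geo

variable {D : ℕ} {s : Sp} {P : ℤ} {X : LConf D} {q : ℕ}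

lemma bq_div (s : Sp) (q : ℕ) : s.bq q / 2 ^ (s.m.S + 1) = s.ce q := by
  have h : s.wq q < 2 ^ (s.m.S + 1) := Nat.mod_lt _ (by positivity)
  unfold Sp.bq
  rw [Nat.add_mul_div_left _ _ (by positivity), Nat.div_eq_of_lt h, zero_add]

lemma cd_dig (h : Cd s P X q) (k : Fin D) :
    ((dig (2 ^ s.m.κ) (s.ce q) k : ℕ) : ℤ) = X.C.h k + 2 ^ (s.m.κ - 1) := by
  have := h.base.cq k
  unfold Prm.cq at this
  rwa [bq_div] at this

lemma ce_eq (hD : s.m.D = D) (h : Cd s P X q) : s.ce q = cd s.m X.C.h := by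
  have h1 : s.ce q < (2 ^ s.m.κ) ^ D := by
    have h2 := h.base.lt
    rw [← bq_div, ← pow_mul]
    apply Nat.div_lt_of_lt_mul
    rw [← pow_add]
    have h3 : s.m.sg = s.m.S + 1 + s.m.κ * D := by unfold Prm.sg; rw [hD]
    rw [← h3]
    exact h2
  rw [← tab_dig _ _ h1]
  unfold cd
  apply tab_congr
  intro i hi
  have h2 := cd_dig h ⟨i, hi⟩
  unfold co
  rw [dif_pos hi, ← h2]
  simp

lemma inBox (h : Cd s P X q) : InBox s.m.κ X.C.h := by
  intro k
  rw [← cd_dig h k]
  have := dig_lt (q := 2 ^ s.m.κ) (by positivity) (s.ce q) k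
  refine ⟨by positivity, ?_⟩
  exact_mod_cast this

end geo

section step

variable {D : ℕ}

lemma step_one (A : OneHead D) (w y : List Bool) (σ : Slb D) (X : LConf D) (h : X.md = 1)
    (h' : (lstep A w y σ X).md = 1) : (lstep A w y σ X).C = A.step w y X.C := by
  unfold lstep at h' ⊢
  rw [if_pos h] at h' ⊢
  by_cases h1 : X.t = σ.n ∨ X.C.q.head? = some true
  · rw [if_pos h1] at h'
    simp [LConf.fail] at h'
  · rw [if_neg h1] at h' ⊢
    unfold Pool.Agent.Helper92.RECT.inner at h' ⊢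
    by_cases h2 : fst (A.step w y X.C).h < 0
    · rw [if_pos h2] at h'
      split_ifs at h'
      · simp at h'
      · simp [LConf.fail] at h'
    · rw [if_neg h2] at h' ⊢
      by_cases h3 : σ.W ≤ fst (A.step w y X.C).h
      · rw [if_pos h3] at h'
        split_ifs at h'
        · simp at h'
        · simp [LConf.fail] at h'
      · rw [if_neg h3]

lemma mv_bd (q : List Bool) (k : ℕ) :
    -1 ≤ Pool.Agent.Helper65.OH.mv q k ∧ Pool.Agent.Helper65.OH.mv q k ≤ 1 := by
  unfold Pool.Agent.Helper65.OH.mv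
  split_ifs <;> norm_num

end step

lemma shf_shf {D : ℕ} (P : ℤ) (p : Fin D → ℤ) : shf P (shf (-P) p) = p := by
  funext k
  unfold shf
  by_cases h : k.val = 0
  · rw [if_pos h, if_pos h]; ring
  · rw [if_neg h, if_neg h]

lemma fst_shf {D : ℕ} (hD : 0 < D) (P : ℤ) (p : Fin D → ℤ) : fst (shf P p) = fst p + P := by
  unfold fst shf
  rw [dif_pos hD, dif_pos hD, if_pos rfl]

theorem slc (RUN : RUN_stmt) (RNS : RNS_stmt) (_STN : STN_stmt) (FCK : FCK_stmt)
    (REAL : REAL_stmt) (WBN : WBN_stmt) (WIN : WIN_stmt) : SLC_stmt := by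
  classical
  intro D A w y s P P' t₀ t₁ hrl d a V Tc hd hTc ha hV hD h x J T hwork htime hnc hTc2 hT
  have hrdy := hrl.rdy
  have hD0 : 0 < D := hrdy.pos
  have hmD : s.m.D = D := by
    obtain ⟨eA, eN, eW, c₀, hp⟩ := hrdy.par
    exact hp.h_D
  have hGD : s.G.D = D := by
    obtain ⟨eA, eN, eW, c₀, hp⟩ := hrdy.parG
    exact hp.h_D
  have hPP : P < P' := by
    have h1 := hrdy.W
    have h2 := hrdy.Wpos
    have : (0 : ℤ) < s.W := by exact_mod_cast h2
    omega
  obtain ⟨hrun, hfin0, hfin1⟩ := RUN A w y s P P' t₀ t₁ hrl d a V Tc hd ha hV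
  obtain ⟨hreal, -, -⟩ := REAL hD0 A w y P P' t₀ t₁ hPP hrl.le hrl.na
  have hrealr := hreal t₁ hrl.le le_rfl
  obtain ⟨Nw, hNwc, hNw⟩ := WBN.new hD0 A w y P P' t₀ t₁ hPP hrl.le hrl.na
  have hreg := WBN.reg hD0 A w y P P' t₀ t₁ hPP hrl.le hrl.na
  have hlen := WBN.len hD0 A w y P P' t₀ t₁ hPP hrl.le
  set r := jt A w y P P' t₀ t₁ with hr
  set u := rl A w y P P' t₀ t₁ with hu
  set Q := s.pr d a V Tc with hQ
  have husucc : ∀ j, u (j + 1) = lstep A w y (rslb A w y P P' t₀ t₁) (u j) := fun j => rfl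
  -- steps in the mode 1 are regular
  have hReg : ∀ i < r, (u i).md = 1 ∧ (u (i + 1)).md = 1 → Reg Q i := by
    intro i hi hm k hk
    have hk' : k < D := by
      have : Q.D = s.m.D := rfl
      omega
    have h1 := (hrun i hi.le).1
    have h2 := (hrun (i + 1) hi).1
    have h3 := cd_dig h1 ⟨k, hk'⟩
    have h4 := cd_dig h2 ⟨k, hk'⟩
    have h5 : (u (i + 1)).C = A.step w y (u i).C := by
      rw [husucc]
      exact step_one A w y _ (u i) hm.1 (by rw [← husucc]; exact hm.2)
    have h6 : (u (i + 1)).C.h ⟨k, hk'⟩ = (u i).C.h ⟨k, hk'⟩ +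
        Pool.Agent.Helper65.OH.mv (A.next (A.inp w y (u i).C.q ((u i).C.M (u i).C.h))) k := by
      rw [h5]
      rfl
    have h7 := mv_bd (A.next (A.inp w y (u i).C.q ((u i).C.M (u i).C.h))) k
    have h8 : ∀ q, Q.ce q = s.ce q := fun q => rfl
    have h9 : Q.κ = s.m.κ := rfl
    rw [h8, h8, h9]
    rw [h6] at h4
    simp only at h3 h4
    constructor
    · have : ((dig (2 ^ s.m.κ) (s.ce (Q.X (i + 1)).1) k : ℕ) : ℤ) ≤
          (dig (2 ^ s.m.κ) (s.ce (Q.X i).1) k : ℕ) + 1 := by
        rw [h3, h4]; linarith [h7.2]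
      exact_mod_cast this
    · have : ((dig (2 ^ s.m.κ) (s.ce (Q.X i).1) k : ℕ) : ℤ) ≤
          (dig (2 ^ s.m.κ) (s.ce (Q.X (i + 1)).1) k : ℕ) + 1 := by
        rw [h3, h4]; linarith [h7.1]
      exact_mod_cast this
  have hJ : ((range r).filter fun i => ¬((u i).md = 1 ∧ (u (i + 1)).md = 1)).card ≤ J := by
    refine le_trans ?_ (hreg.trans hnc)
    rw [← Set.ncard_coe_finset]
    apply le_of_eq
    congr 1
    ext i
    simp
  have hNc : ((range r).filter fun i => Nw i).card ≤ x := by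
    refine le_trans ?_ (hNwc.trans hwork)
    rw [← Set.ncard_coe_finset]
    apply le_of_eq
    congr 1
    ext i
    simp
  -- the time
  have hrt : r ≤ 2 ^ (h + 1) * (x + 1) := by
    have h1 : x + 1 ≤ 2 ^ h * (x + 1) := Nat.le_mul_of_pos_left _ (by positivity)
    have h2 : 2 ^ (h + 1) * (x + 1) = 2 ^ h * (x + 1) + 2 ^ h * (x + 1) := by ring
    omega
  refine WIN Q (fun o ho => RNS A w y s P P' hrdy d a V Tc o ho ha hV) hd
    (fun i => Nw i ∨ ¬((u i).md = 1 ∧ (u (i + 1)).md = 1)) r (x + J) (h + 1) J T hTc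
    (hrt.trans hTc2) hfin1 hfin0 ?_ ?_ ?_ ?_ ?_ ?_
  · -- the final check
    have hXr := hrun r le_rfl
    refine FCK.cmp A w y s P P' hrdy (u r) (Q.X r).1 _ hXr.1 ?_ ?_
    · intro hm
      have hin : P ≤ fst (A.conf w y t₁).h ∧ fst (A.conf w y t₁).h < P' := by
        by_contra hn
        rw [hrealr] at hm
        unfold lcf at hm
        rw [if_neg hn] at hm
        simp only at hm
        split_ifs at hm
        all_goals omega
      have hC : (u r).C = ⟨(A.conf w y t₁).q, shf (-P) (A.conf w y t₁).h,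
          lM P P' (A.conf w y t₁).M⟩ := by
        rw [hrealr]
        unfold lcf
        rw [if_pos hin]
      refine ⟨fun hf => ?_, fun hf => ?_⟩
      · rw [hC]
        exact hrl.f0 hf
      · have hg := (hrl.f1 hf).good
        rw [hC]
        simp only
        rw [shf_shf]
        exact ⟨hg.lt, hg.wq, hg.len, hg.cq⟩
    · intro hf hlV
      obtain ⟨p, hp, hpal⟩ := hrl.al hf
      obtain ⟨hl1, hl2, hl3⟩ := FCK.lv A w y s P P' hrdy p hp
      rw [hpal] at hl1 hl2 hl3
      obtain ⟨hp1, hp2, -⟩ := hl1.1 hlV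
      obtain ⟨hp3, hp4⟩ := hl2 hlV
      have hfs : fst (shf (-P) p) = fst p - P := by rw [fst_shf hD0]; ring
      have hW := hrdy.W
      have h1 : 0 ≤ fst (shf (-P) p) := by rw [hfs]; omega
      have h2 : fst (shf (-P) p) < s.W := by rw [hfs]; omega
      have h3 := hXr.2 (shf (-P) p) hp4 h1 h2 (by rw [shf_shf]; exact hp)
      have h4 : Q.al = cd s.m (shf (-P) p) := hp3
      rw [h4, hl3]
      have h5 := (hrl.f1 hf).ct p hp
      rw [hmD.trans hGD.symm, h5, h3, hrdy.S]
      congr 2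
      have h6 : (u r).C.M = lM P P' (A.conf w y t₁).M := by
        rw [hrealr]
        unfold lcf
        split_ifs <;> rfl
      rw [h6]
      unfold lM
      rw [if_pos ⟨h1, by rw [hfs]; omega⟩, shf_shf]
  · -- the new steps
    intro v i hvi hir hch hpos _
    by_cases hm : (u i).md = 1 ∧ (u (i + 1)).md = 1
    · left
      refine hNw v i hvi hir ?_ ?_ hm.1 hm.2
      · intro hM
        apply hch
        have h1 := hrun v (by omega)
        have h2 := hrun (v + 1) (by omega)
        have h3 : (Q.X (v + 1)).2 = Function.update (Q.X v).2 (s.ce (Q.X v).1)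
            (s.Wr (Q.X v).1 ((Q.X v).2 (s.ce (Q.X v).1))) := rfl
        by_cases hmv : (u v).md = 1
        · obtain ⟨hp1, hp2, hp3⟩ := h1.1.pos hmv
          have hb := inBox h1.1
          have h4 := h1.2 _ hb hp1 hp2 hp3
          have h5 := h2.2 _ hb hp1 hp2 hp3
          rw [hM, ← h4, ← ce_eq hmD h1.1] at h5
          have h6 : s.Wr (Q.X v).1 ((Q.X v).2 (s.ce (Q.X v).1)) =
              (Q.X v).2 (s.ce (Q.X v).1) := by
            rw [← h5, h3, Function.update_self]
            rw [h3, Function.update_self] at h5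
            rw [h5]
            exact h5
          rw [h3, h6, Function.update_eq_self]
        · have h4 : s.Wr (Q.X v).1 ((Q.X v).2 (s.ce (Q.X v).1)) =
              (Q.X v).2 (s.ce (Q.X v).1) := by
            unfold Sp.Wr
            rw [eq01_ne (by rw [h1.1.md]; exact hmv), ifz_zero]
          rw [h3, h4, Function.update_eq_self]
      · intro j hvj hji hh
        apply hpos j hvj hji
        have h1 := (hrun j (by omega)).1
        have h2 := (hrun (i + 1) (by omega)).1
        show s.ce _ = s.ce _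
        rw [ce_eq hmD h1, ce_eq hmD h2, hh]
    · right
      exact hm
  · -- count of the new steps
    refine le_trans (card_le_card (t := ((range r).filter fun i => Nw i) ∪
      ((range r).filter fun i => ¬((u i).md = 1 ∧ (u (i + 1)).md = 1))) ?_)
      ((card_union_le _ _).trans (Nat.add_le_add hNc hJ))
    intro i hi
    simp only [Finset.mem_filter, Finset.mem_union] at hi ⊢
    rcases hi.2.1 with h1 | h1
    · exact Or.inl ⟨hi.1, h1⟩
    · exact Or.inr ⟨hi.1, h1⟩
  · -- count of the irregular steps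
    refine le_trans (card_le_card ?_) hJ
    intro i hi
    rw [mem_filter] at hi ⊢
    refine ⟨hi.1, fun hm => hi.2 (hReg i (mem_range.1 hi.1) hm)⟩
  · refine hrt.trans (Nat.mul_le_mul_left _ ?_)
    omega
  · exact hT

end Pool.Agent.Helper12.RECT
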